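import Mathlib

set_option autoImplicit false

namespace Pool.Agent.Results.MP_ca5fbf_co.InfinitelyOften

/-- `s` contains no three-term arithmetic progression `a, a + d, a + 2d` with `d ≥ 1`. -/
def APFree (s : Finset ℕ) : Prop :=
  ∀ a d : ℕ, 1 ≤ d → ¬ (a ∈ s ∧ a + d ∈ s ∧ a + 2 * d ∈ s)

/-- `r₃(m)`: the largest size of a subset of `{1,…,m}` without three-term progressions. -/
noncomputable def r3 (m : ℕ) : ℕ :=
  sSup {k : ℕ | ∃ s : Finset ℕ, s ⊆ Finset.Icc 1 m ∧ APFree s ∧ s.card = k}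

/-- `A(n) = n - r₃(⌈n/3⌉)`. -/
noncomputable def A (n : ℕ) : ℤ := (n : ℤ) - r3 ((n + 2) / 3)

/-- `max_{k+l=⌈n/2⌉} (r₃(⌈k/2⌉) + r₃(⌈l/2⌉))`. -/
noncomputable def maxSplit (n : ℕ) : ℕ :=
  sSup {t : ℕ | ∃ k l : ℕ, k + l = (n + 1) / 2 ∧ t = r3 ((k + 1) / 2) + r3 ((l + 1) / 2)}

/-- `B(n) = n - max_{k+l=⌈n/2⌉} (r₃(⌈k/2⌉) + r₃(⌈l/2⌉))`. -/
noncomputable def B (n : ℕ) : ℤ := (n : ℤ) - maxSplit n

theorem r3_le (m : ℕ) : r3 m ≤ m := by
  apply csSup_le'
  rintro k ⟨s, hs, -, rfl⟩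
  simpa using Finset.card_le_card hs

theorem r3_bdd (m : ℕ) :
    BddAbove {k : ℕ | ∃ s : Finset ℕ, s ⊆ Finset.Icc 1 m ∧ APFree s ∧ s.card = k} := by
  refine ⟨m, ?_⟩
  rintro k ⟨s, hs, -, rfl⟩
  simpa using Finset.card_le_card hs

theorem roth_le_r3 (m : ℕ) : rothNumberNat m ≤ r3 m := by
  classical
  obtain ⟨t, ht, hcard, hfree⟩ := rothNumberNat_spec m
  apply le_csSup (r3_bdd m)
  refine ⟨t.image (· + 1), ?_, ?_, ?_⟩
  · intro x hx
    obtain ⟨y, hy, rfl⟩ := Finset.mem_image.1 hx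
    have := Finset.mem_range.1 (ht hy)
    exact Finset.mem_Icc.2 ⟨by omega, by omega⟩
  · rintro a d hd ⟨h1, h2, h3⟩
    obtain ⟨x, hx, hx'⟩ := Finset.mem_image.1 h1
    obtain ⟨y, hy, hy'⟩ := Finset.mem_image.1 h2
    obtain ⟨z, hz, hz'⟩ := Finset.mem_image.1 h3
    have := hfree (a := x) (by exact_mod_cast hx) (b := y) (by exact_mod_cast hy) (c := z)
      (by exact_mod_cast hz) (by omega)
    omega
  · rw [Finset.card_image_of_injective _ (add_left_injective 1), hcard]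

/-- If `B(n) ≤ A(n)` then `r₃(⌈n/3⌉)` is at most `r₃(a) + r₃(b)` for a short split. -/
theorem split_of_le {n : ℕ} (h : B n ≤ A n) :
    ∃ a b : ℕ, 2 * (a + b) ≤ (n + 1) / 2 + 2 ∧ r3 ((n + 2) / 3) ≤ r3 a + r3 b := by
  have hne : {t : ℕ | ∃ k l : ℕ, k + l = (n + 1) / 2 ∧
      t = r3 ((k + 1) / 2) + r3 ((l + 1) / 2)}.Nonempty :=
    ⟨_, 0, (n + 1) / 2, by omega, rfl⟩
  have hbdd : BddAbove {t : ℕ | ∃ k l : ℕ, k + l = (n + 1) / 2 ∧
      t = r3 ((k + 1) / 2) + r3 ((l + 1) / 2)} := by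
    refine ⟨n + 2, ?_⟩
    rintro t ⟨k, l, hkl, rfl⟩
    have h1 := r3_le ((k + 1) / 2)
    have h2 := r3_le ((l + 1) / 2)
    omega
  obtain ⟨k, l, hkl, hmax⟩ := Nat.sSup_mem hne hbdd
  refine ⟨(k + 1) / 2, (l + 1) / 2, by omega, ?_⟩
  unfold A B at h
  have : maxSplit n = r3 ((k + 1) / 2) + r3 ((l + 1) / 2) := hmax
  rw [this] at h
  omega

/-- The polynomial saving forced by `B(n) ≤ A(n)` for all large `n`. -/
theorem poly_bound {n0 : ℕ} (h : ∀ n, n0 ≤ n → B n ≤ A n) :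
    ∀ m : ℕ, (r3 m : ℝ) ≤ (n0 + 29 : ℝ) * (m : ℝ) ^ (3 / 4 : ℝ) := by
  intro m
  induction m using Nat.strong_induction_on with
  | _ m ih =>
    have hCpos : (0 : ℝ) < (n0 + 29 : ℝ) := by positivity
    rcases Nat.eq_zero_or_pos m with rfl | hm0
    · have : r3 0 = 0 := Nat.le_zero.1 (r3_le 0)
      rw [this]
      simp
    have hm1 : (1 : ℝ) ≤ (m : ℝ) := by exact_mod_cast hm0
    by_cases hm : m < n0 + 29
    · have h1 : (r3 m : ℝ) ≤ m := by exact_mod_cast r3_le m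
      have h2 : (m : ℝ) ≤ n0 + 29 := by exact_mod_cast hm.le
      have h3 : (1 : ℝ) ≤ (m : ℝ) ^ (3 / 4 : ℝ) := Real.one_le_rpow hm1 (by norm_num)
      nlinarith
    push Not at hm
    obtain ⟨a, b, hab, hle⟩ := split_of_le (h (3 * m) (by omega))
    have e1 : (3 * m + 2) / 3 = m := by omega
    rw [e1] at hle
    have ha : a < m := by omega
    have hb : b < m := by omega
    have iha := ih a ha
    have ihb := ih b hb
    -- concavity
    have hconc := (Real.concaveOn_rpow (p := 3 / 4) (by norm_num) (by norm_num)).2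
      (Set.mem_Ici.2 (Nat.cast_nonneg (α := ℝ) a)) (Set.mem_Ici.2 (Nat.cast_nonneg (α := ℝ) b))
      (show (0 : ℝ) ≤ 1 / 2 by norm_num) (show (0 : ℝ) ≤ 1 / 2 by norm_num) (by norm_num)
    simp only [smul_eq_mul] at hconc
    -- `(a + b) / 2 ≤ y * m`
    have hsum : (1 / 2 * (a : ℝ) + 1 / 2 * (b : ℝ)) ≤ (3967 / 10000) * m := by
      have h4 : 4 * (a + b) ≤ 3 * m + 5 := by omega
      have h5 : (4 : ℝ) * (a + b) ≤ 3 * m + 5 := by exact_mod_cast h4
      have h6 : (29 : ℝ) ≤ m := by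
        have : 29 ≤ m := by omega
        exact_mod_cast this
      linarith
    have hmono : (1 / 2 * (a : ℝ) + 1 / 2 * (b : ℝ)) ^ (3 / 4 : ℝ) ≤
        ((3967 / 10000) * m) ^ (3 / 4 : ℝ) :=
      Real.rpow_le_rpow (by positivity) hsum (by norm_num)
    have hc : (3967 / 10000 : ℝ) ^ (3 / 4 : ℝ) ≤ 1 / 2 := by
      have h7 : (1 / 2 : ℝ) = ((1 / 16 : ℝ)) ^ (1 / 4 : ℝ) := by
        rw [show (1 / 16 : ℝ) = (1 / 2) ^ (4 : ℝ) by norm_num, ← Real.rpow_mul (by norm_num)]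
        norm_num
      have h8 : (3967 / 10000 : ℝ) ^ (3 / 4 : ℝ) =
          ((3967 / 10000 : ℝ) ^ (3 : ℝ)) ^ (1 / 4 : ℝ) := by
        rw [← Real.rpow_mul (by norm_num)]
        norm_num
      rw [h7, h8]
      apply Real.rpow_le_rpow (by positivity) _ (by norm_num)
      norm_num
    rw [Real.mul_rpow (by norm_num) (by positivity)] at hmono
    have hm34 : (0 : ℝ) ≤ (m : ℝ) ^ (3 / 4 : ℝ) := by positivity
    have hfinal : (a : ℝ) ^ (3 / 4 : ℝ) + (b : ℝ) ^ (3 / 4 : ℝ) ≤ (m : ℝ) ^ (3 / 4 : ℝ) := by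
      nlinarith
    have hle' : (r3 m : ℝ) ≤ r3 a + r3 b := by exact_mod_cast hle
    calc (r3 m : ℝ) ≤ r3 a + r3 b := hle'
      _ ≤ (n0 + 29 : ℝ) * ((a : ℝ) ^ (3 / 4 : ℝ) + (b : ℝ) ^ (3 / 4 : ℝ)) := by linarith
      _ ≤ _ := mul_le_mul_of_nonneg_left hfinal hCpos.le

/-- **MP_ca5fbf_co, Q1, answered negatively.**  There are infinitely many positive integers `n`
with `A(n) < B(n)`. -/
theorem result : {n : ℕ | 1 ≤ n ∧ A n < B n}.Infinite := by
  rw [Set.infinite_iff_exists_gt]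
  intro n0
  by_contra hcon
  push Not at hcon
  have h : ∀ n, n0 + 1 ≤ n → B n ≤ A n := by
    intro n hn
    by_contra hlt
    push Not at hlt
    have := hcon n ⟨by omega, hlt⟩
    omega
  have hpoly := poly_bound h
  set C : ℝ := ((n0 + 1 : ℕ) : ℝ) + 29 with hC
  have hCpos : 0 < C := by positivity
  -- Behrend
  have hbeh : ∀ m : ℕ, 1 ≤ m → Real.log m / 4 ≤ Real.log C + 4 * Real.sqrt (Real.log m) := by
    intro m hm
    have hm0 : (0 : ℝ) < m := by exact_mod_cast hm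
    have h1 := Behrend.roth_lower_bound (N := m)
    have h2 : (rothNumberNat m : ℝ) ≤ r3 m := by exact_mod_cast roth_le_r3 m
    have h3 := (h1.trans h2).trans (hpoly m)
    have h4 := Real.log_le_log (by positivity) h3
    rw [Real.log_mul hm0.ne' (Real.exp_pos _).ne', Real.log_exp,
      Real.log_mul hCpos.ne' (by positivity), Real.log_rpow hm0] at h4
    linarith
  have hlim : Filter.Tendsto (fun x : ℝ => x ^ 2 / 4 - 4 * x - Real.log C) Filter.atTop
      Filter.atTop := by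
    have : (fun x : ℝ => x ^ 2 / 4 - 4 * x - Real.log C) =
        fun x => x * (x / 4 - 4) + (- Real.log C) := by funext x; ring
    rw [this]
    refine Filter.tendsto_atTop_add_const_right _ _ ?_
    exact Filter.Tendsto.atTop_mul_atTop₀ Filter.tendsto_id
      (Filter.tendsto_atTop_add_const_right _ _ (Filter.tendsto_id.atTop_div_const (by norm_num)))
  have hsq : Filter.Tendsto (fun m : ℕ => Real.sqrt (Real.log m)) Filter.atTop Filter.atTop :=
    Real.tendsto_sqrt_atTop.comp (Real.tendsto_log_atTop.comp tendsto_natCast_atTop_atTop)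
  have h5 := (hlim.comp hsq).eventually (Filter.eventually_gt_atTop 0)
  obtain ⟨m, hm1, hm2⟩ := (h5.and (Filter.eventually_ge_atTop 1)).exists
  have h6 := hbeh m hm2
  simp only [Function.comp] at hm1
  rw [Real.sq_sqrt (Real.log_nonneg (by exact_mod_cast hm2))] at hm1
  linarith

end Pool.Agent.Results.MP_ca5fbf_co.InfinitelyOften
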